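import Pool.Agent.Helper7.BM.Goals2

/-!
# Project BM, packet CLS: points in one residue class
-/

set_option autoImplicit false

open Finset
open Pool.Agent.Helper7.BM

namespace Pool.Agent.Helper29.BM

theorem cls (h1 : StmtDDV) (h2 : StmtSZD) (h3 : StmtLIN) (h4 : StmtZC) (h5 : StmtCOP) : StmtCLS := by
  intro f g d α β K1 K2 X1 X2 l u1 u2 hd hα hβ hcop hf hg hfd hgd hK hl hlg hdet Z hZ hinj
  -- LIN for the points of `Z`
  obtain ⟨c, hc0, hc⟩ := h3 (Fin K1 × Fin K2) {z // z ∈ Z}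
    (fun z ij => ((z.1.1 : ℚ) ^ (ij.1 : ℕ) * (z.1.2 : ℚ) ^ (ij.2 : ℕ))) (by
      intro w
      have hdvd := h1 f g l K1 K2 u1 u2 (fun k => (w k).1) hl hlg (fun k =>
        ⟨(hZ _ (w k).2).2.2.2.1, (hZ _ (w k).2).2.2.2.2, (hZ _ (w k).2).1⟩)
      have hsz := h2 K1 K2 X1 X2 (fun k => (w k).1) (fun k =>
        ⟨(hZ _ (w k).2).2.1, (hZ _ (w k).2).2.2.1⟩)
      have hlt : |(Matrix.of fun (k ij : Fin K1 × Fin K2) =>
          (w k).1.1 ^ (ij.1 : ℕ) * (w k).1.2 ^ (ij.2 : ℕ)).det| < (l : ℤ) ^ (K1 * K2 * (K1 * K2 - 1) / 2) := by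
        refine lt_of_le_of_lt hsz ?_
        exact_mod_cast hdet
      have h0 := Int.eq_zero_of_abs_lt_dvd hdvd hlt
      have hcast : (Matrix.of fun (k ij : Fin K1 × Fin K2) =>
          (((w k).1.1 : ℚ) ^ (ij.1 : ℕ) * ((w k).1.2 : ℚ) ^ (ij.2 : ℕ))) =
          (Matrix.of fun (k ij : Fin K1 × Fin K2) =>
          (w k).1.1 ^ (ij.1 : ℕ) * (w k).1.2 ^ (ij.2 : ℕ)).map (Int.cast : ℤ → ℚ) := by
        ext k ij
        simp
      have hdet' : (Matrix.of fun (k ij : Fin K1 × Fin K2) =>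
          (((w k).1.1 : ℚ) ^ (ij.1 : ℕ) * ((w k).1.2 : ℚ) ^ (ij.2 : ℕ))).det = 0 := by
        rw [hcast, ← Int.cast_det, h0, Int.cast_zero]
      exact hdet')
  refine h4 h5 f g d α β K1 K2 hd hα hβ hcop hf hg hfd hgd hK c hc0 Z (fun z hz => (hZ z hz).1) ?_ hinj
  intro z hz
  exact hc ⟨z, hz⟩

end Pool.Agent.Helper29.BM
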