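import Pool.Agent.Helper7.BM.Goals2

/-!
# Project BM, packet NWT: Newton iteration modulo powers of a prime
-/

set_option autoImplicit false

open Pool.Agent.Helper7.BM

namespace Pool.Agent.Helper29.BM

theorem nwt : StmtNWT := by
  intro f g l E u1 u2 hl hg
  -- the inverse of `g'(u2)` modulo `l`
  have hcop : IsCoprime (l : ℤ) (g.derivative.eval u2) :=
    (Prime.coprime_iff_not_dvd (Nat.prime_iff_prime_int.mp hl)).mpr hg
  obtain ⟨a, v, hav⟩ := hcop
  have key : ∀ k : ℕ, ∃ ψ : Polynomial ℤ, ∀ x1 x2 : ℤ, (l : ℤ) ∣ x1 - u1 → (l : ℤ) ∣ x2 - u2 →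
      f.eval x1 = g.eval x2 → (l : ℤ) ^ (k + 1) ∣ x2 - ψ.eval (x1 - u1) := by
    intro k
    induction k with
    | zero =>
      refine ⟨Polynomial.C u2, ?_⟩
      intro x1 x2 _ h2 _
      simpa using h2
    | succ k ih =>
      obtain ⟨ψ, hψ⟩ := ih
      refine ⟨ψ - Polynomial.C v * (g.comp ψ - f.comp (Polynomial.C u1 + Polynomial.X)), ?_⟩
      intro x1 x2 h1 h2 h
      have hk := hψ x1 x2 h1 h2 h
      obtain ⟨c, hc⟩ := Polynomial.binomExpansion g x2 (ψ.eval (x1 - u1) - x2)
      have hx : x2 + (ψ.eval (x1 - u1) - x2) = ψ.eval (x1 - u1) := by ring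
      rw [hx] at hc
      have hev : (ψ - Polynomial.C v * (g.comp ψ - f.comp (Polynomial.C u1 + Polynomial.X))).eval
          (x1 - u1) = ψ.eval (x1 - u1) - v * (g.eval (ψ.eval (x1 - u1)) - g.eval x2) := by
        simp only [Polynomial.eval_sub, Polynomial.eval_mul, Polynomial.eval_C, Polynomial.eval_comp,
          Polynomial.eval_add, Polynomial.eval_X]
        rw [show u1 + (x1 - u1) = x1 by ring, h]
      rw [hev, hc]
      set h' := ψ.eval (x1 - u1) - x2 with hh'
      have hdh : (l : ℤ) ^ (k + 1) ∣ h' := by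
        rw [hh', ← neg_sub]; exact (dvd_neg).mpr hk
      have hd1 : (l : ℤ) ∣ g.derivative.eval x2 - g.derivative.eval u2 :=
        h2.trans (Polynomial.sub_dvd_eval_sub x2 u2 g.derivative)
      have hd2 : (l : ℤ) ∣ 1 - v * g.derivative.eval x2 := by
        have : 1 - v * g.derivative.eval x2 = a * l - v * (g.derivative.eval x2 -
            g.derivative.eval u2) := by rw [← hav]; ring
        rw [this]
        exact dvd_sub (Dvd.intro_left a rfl) (hd1.mul_left v)
      have e : x2 - (ψ.eval (x1 - u1) - v * (g.eval x2 + g.derivative.eval x2 * h' + c * h' ^ 2 -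
          g.eval x2)) = -(h' * (1 - v * g.derivative.eval x2)) + v * c * (h' * h') := by
        have : ψ.eval (x1 - u1) = x2 + h' := by rw [hh']; ring
        rw [this]; ring
      rw [e]
      refine dvd_add ?_ ?_
      · rw [dvd_neg, pow_succ]
        exact mul_dvd_mul hdh hd2
      · refine Dvd.dvd.mul_left ?_ _
        rw [pow_succ]
        exact mul_dvd_mul hdh ((dvd_pow_self (l : ℤ) (Nat.succ_ne_zero k)).trans hdh)
  obtain ⟨ψ, hψ⟩ := key E
  exact ⟨ψ, fun x1 x2 h1 h2 h => (pow_dvd_pow (l : ℤ) (Nat.le_succ E)).trans (hψ x1 x2 h1 h2 h)⟩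

end Pool.Agent.Helper29.BM
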